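import Mathlib
import Pool.Agent.H.MP_cfafa5_al.C

namespace Pool.Agent.Results.MP_cfafa5_al.NoBijection

variable {A : Type} [Ring A]

/-- Pure embeddings of left modules. -/
def IsPureEmb {X Y : Type} [AddCommGroup X] [Module A X] [AddCommGroup Y] [Module A Y]
    (f : X →ₗ[A] Y) : Prop :=
  Function.Injective f ∧ ∀ (n m : ℕ) (r : Fin m → Fin n → A) (a : Fin m → X),
    (∃ y : Fin n → Y, ∀ j, ∑ i, r j i • y i = f (a j)) →
      ∃ x : Fin n → X, ∀ j, ∑ i, r j i • x i = a j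

variable (A) in
/-- Pure-injective left modules. -/
def PureInj (M : Type) [AddCommGroup M] [Module A M] : Prop :=
  ∀ (X Y : Type) [AddCommGroup X] [Module A X] [AddCommGroup Y] [Module A Y]
    (f : X →ₗ[A] Y), IsPureEmb f → ∀ g : X →ₗ[A] M, ∃ h : Y →ₗ[A] M, ∀ x, h (f x) = g x

variable (A) in
/-- Indecomposable left modules. -/
def Indec (M : Type) [AddCommGroup M] [Module A M] : Prop :=
  Nontrivial M ∧ ∀ U W : Submodule A M, IsCompl U W → U = ⊥ ∨ W = ⊥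

variable (A) in
/-- Indecomposable pure-injective left modules. -/
def Pt : Type 1 := {N : ModuleCat.{0} A // Indec A N ∧ PureInj A N}

variable (A) in
/-- Isomorphism of modules. -/
def isoSetoid : Setoid (Pt A) where
  r N N' := Nonempty (N.1 ≃ₗ[A] N'.1)
  iseqv := ⟨fun _ => ⟨LinearEquiv.refl _ _⟩, fun ⟨f⟩ => ⟨f.symm⟩, fun ⟨f⟩ ⟨g⟩ => ⟨f.trans g⟩⟩

variable (A) in
/-- The points of the left Ziegler spectrum: isomorphism classes of indecomposable
pure-injective left modules.  The right spectrum of `R` is `Zg Rᵐᵒᵖ`. -/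
def Zg : Type 1 := Quotient (isoSetoid A)

open Pool.Agent.H.MP_cfafa5_al

lemma upper (reg : ∀ a : A, ∃ x, a * x * a = a) : ∃ f : Zg A → Ideal A, Function.Injective f := by
  have h1 : ∀ N : Pt A, Module.Injective A N.1 := fun N =>
    ⟨fun X Y _ _ _ _ f hf g => N.2.2 X Y f ⟨hf, pure_of_reg reg f hf⟩ g⟩
  choose x hx using fun N : Pt A => @exists_ne N.1 N.2.1.1 0
  refine ⟨fun q => LinearMap.ker (LinearMap.toSpanSingleton A _ (x (Quotient.out q))),
    fun q q' h => Quotient.out_equiv_out.1 (iso_of_ann (h1 _) (h1 _) (Quotient.out q).2.1.2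
      (Quotient.out q').2.1.2 _ (x _) (hx _) fun r => ?_)⟩
  exact SetLike.ext_iff.1 h r

lemma lower {L Φ : Type} [AddCommGroup L] [Nontrivial L] (ρ : Φ → A →+* AddMonoid.End L)
    (h1 : ∀ φ x y, x ≠ 0 → y ≠ 0 → ∃ r s, ρ φ r x = ρ φ s y ∧ ρ φ r x ≠ 0)
    (h2 : ∀ φ ψ x y, x ≠ 0 → (∀ r, ρ φ r x = 0 ↔ ρ ψ r y = 0) → φ = ψ) :
    ∃ g : Φ → Zg A, Function.Injective g := by
  have : ∀ φ, ∃ (N : Pt A) (f : L →+ N.1), Function.Injective f ∧
      (∀ r x, f (ρ φ r x) = r • f x) ∧ ∀ x : N.1, x ≠ 0 → ∃ (r : A) (m : L), m ≠ 0 ∧ r • x = f m := by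
    intro φ
    letI : Module A L := Module.compHom L (ρ φ)
    obtain ⟨E, _, _, f, e1, e2, e3⟩ := exists_hull (A := A) L
    refine ⟨⟨ModuleCat.of A E, ⟨e2.nontrivial, fun U W hUW => ?_⟩,
      fun X Y _ _ _ _ k hk g => e1.out k hk.1 g⟩, f.toAddMonoidHom, e2,
      fun r x => f.map_smul r x, e3⟩
    by_contra hc
    obtain ⟨hU, hW⟩ := not_or.1 hc
    obtain ⟨x, hx, hx0⟩ := Submodule.exists_mem_ne_zero_of_ne_bot hU
    obtain ⟨y, hy, hy0⟩ := Submodule.exists_mem_ne_zero_of_ne_bot hW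
    obtain ⟨r, m, hm, hr⟩ := e3 x hx0
    obtain ⟨t, n, hn, ht⟩ := e3 y hy0
    obtain ⟨a, b, h3, h4⟩ := h1 φ m n hm hn
    refine h4 (e2 ((Submodule.disjoint_def.1 hUW.disjoint _ ?_ ?_).trans f.map_zero.symm))
    · rw [show f (ρ φ a m) = a • f m from f.map_smul a m, ← hr]
      exact U.smul_mem _ (U.smul_mem _ hx)
    · rw [h3, show f (ρ φ b n) = b • f n from f.map_smul b n, ← ht]
      exact W.smul_mem _ (W.smul_mem _ hy)
  choose N f e1 e2 e3 using this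
  refine ⟨fun φ => Quotient.mk _ (N φ), fun φ ψ h => ?_⟩
  obtain ⟨θ⟩ := Quotient.exact h
  obtain ⟨m, hm⟩ := exists_ne (0 : L)
  obtain ⟨r, n, hn, hr⟩ := e3 ψ (θ (f φ m))
    (by rw [Ne, map_eq_zero_iff _ θ.injective, map_eq_zero_iff _ (e1 φ)]; exact hm)
  refine (h2 ψ φ n (ρ φ r m) hn fun s => ?_).symm
  rw [← map_eq_zero_iff _ (e1 ψ), ← map_eq_zero_iff _ (e1 φ), e2, e2, e2, ← hr,
    ← map_eq_zero_iff _ θ.injective (x := s • r • f φ m), map_smul, map_smul]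

/-- There is a ring whose right and left Ziegler spectra are not even in bijection. -/
theorem result : ∃ (R : Type) (_ : Ring R), IsEmpty (Zg Rᵐᵒᵖ ≃ Zg R) := by
  obtain ⟨R, _, L, _, Φ, ρ, h1, h2, _, h3, h4⟩ := exists_ring
  refine ⟨R, inferInstance, ⟨fun e => ?_⟩⟩
  obtain ⟨f, hf⟩ := upper (A := Rᵐᵒᵖ) fun a => by
    obtain ⟨x, hx⟩ := h1 a.unop
    exact ⟨MulOpposite.op x, MulOpposite.unop_injective (by simpa [mul_assoc] using hx)⟩
  obtain ⟨g, hg⟩ := lower ρ h3 h4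
  exact h2.not_ge (Cardinal.mk_le_of_injective (hf.comp (e.symm.injective.comp hg)))

end Pool.Agent.Results.MP_cfafa5_al.NoBijection
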